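import Mathlib
import Pool.Agent.Helper278.RGFin

/-!
Every star homomorphism, unital or not, from an amplification `M^t` with `t > 1` to the tracial
ultrapower of `M` is zero, if all nonzero star homomorphisms from `M` are unital.
-/

set_option autoImplicit false

open scoped InnerProductSpace ComplexOrder BoundedContinuousFunction ComplexConjugate
open Filter Topology

namespace Pool.Agent.Y364.AZ

open Pool.Agent.Helper278 Pool.Agent.Helper278.RG

universe u v w

section main

variable {H : Type u} [NormedAddCommGroup H] [InnerProductSpace ℂ H] [CompleteSpace H]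
variable {N : VonNeumannAlgebra H}

/-- every star homomorphism from the amplification, unital or not, is zero -/
theorem amp_zero (T : TracialState N) (hL : LyapProp T.τ) (hN : HasTrivialCenter N)
    (h : HomsUnital (M := Elt N) T.τ) :
    ∀ t : ℝ, 1 < t → ∃ (n : ℕ) (p : Matrix (Fin n) (Fin n) (Elt N)) (hp : IsStarProjection p),
      AmpProj (A := Elt N) T.τ t n p ∧
      ∀ U : Ultrafilter ℕ, (∀ n, {n} ∉ U) → ∀ (Q : Type u) [Ring Q] [StarRing Q] [Algebra ℂ Q]
        [StarModule ℂ Q] (π : (ℕ →ᵇ Elt N) →⋆ₐ[ℂ] Q) (σ : Q → ℂ),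
        IsTracialUltrapower T.τ U π σ → ∀ f : corner p hp →⋆ₙₐ[ℂ] Q, ∀ x, f x = 0 := by
  intro t ht
  have hA := trAlg T
  obtain ⟨m, hm, hs0, hs1⟩ := exists_split ht
  obtain ⟨p, hp, hpt⟩ := exists_proj_trace hA hL (t - m) hs0.le hs1
  have hD := isStarProjection_dg (m := m) hp
  refine ⟨m + 1, Matrix.diagonal (dg p), hD, ⟨?_, hD, mtr_dg T.τ hA.one p hpt⟩, ?_⟩
  · push_cast
    linarith
  intro U hU Q _ _ _ _ π σ hπ f
  have hS := sigma_trAlg hπ
  set D := Matrix.diagonal (dg (m := m) p) with hDdef
  obtain ⟨m', rfl⟩ : ∃ m', m = m' + 1 := ⟨m - 1, by omega⟩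
  have hd0 : dg (m := m' + 1) p 0 = 1 := dg_castSucc p 0
  have hdi : ∀ i, dg (m := m' + 1) p i * dg (m := m' + 1) p i = dg (m := m' + 1) p i := by
    intro i
    refine Fin.lastCases ?_ (fun i => ?_) i
    · rw [dg_last]
      exact hp.isIdempotentElem
    · rw [dg_castSucc, mul_one]
  have hDl : ∀ (i j : Fin (m' + 1 + 1)) (x : Elt N),
      D * Matrix.single i j x = Matrix.single i j (dg p i * x) := by
    intro i j x
    have h1 : Matrix.single i j (dg p i * x) = Matrix.single i i (dg p i) * Matrix.single i j x :=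
      (single_mul_single _ _ _ _ _).symm
    rw [h1, hDdef]
    ext a c
    rw [Matrix.diagonal_mul, Matrix.mul_apply, Finset.sum_eq_single i]
    · by_cases hai : i = a
      · subst hai
        simp [Matrix.single]
      · simp [Matrix.single, hai]
    · intro k _ hk
      simp [Matrix.single, Ne.symm hk]
    · simp
  have hDr : ∀ (i j : Fin (m' + 1 + 1)) (x : Elt N),
      Matrix.single i j x * D = Matrix.single i j (x * dg p j) := by
    intro i j x
    have h1 : Matrix.single i j (x * dg p j) = Matrix.single i j x * Matrix.single j j (dg p j) :=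
      (single_mul_single _ _ _ _ _).symm
    rw [h1, hDdef]
    ext a c
    rw [Matrix.mul_diagonal, Matrix.mul_apply, Finset.sum_eq_single j]
    · by_cases hjc : j = c
      · subst hjc
        simp [Matrix.single]
      · simp [Matrix.single, hjc]
    · intro k _ hk
      simp [Matrix.single, Ne.symm hk]
    · simp
  have hmem : ∀ (i j : Fin (m' + 1 + 1)) (x : Elt N), dg p i * x * dg p j = x →
      Matrix.single i j x ∈ corner D hD := by
    intro i j x hx
    show D * Matrix.single i j x * D = Matrix.single i j x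
    rw [hDl, hDr, hx]
  have h00 : ∀ x : Elt N, Matrix.single (0 : Fin (m' + 1 + 1)) 0 x ∈ corner D hD := by
    intro x
    apply hmem
    rw [hd0, one_mul, mul_one]
  let g : Elt N →⋆ₙₐ[ℂ] Q :=
    { toFun := fun x => f ⟨Matrix.single 0 0 x, h00 x⟩
      map_smul' := fun c x => by
        have : (⟨Matrix.single 0 0 (c • x), h00 (c • x)⟩ : corner D hD) =
            c • ⟨Matrix.single 0 0 x, h00 x⟩ := Subtype.ext (Matrix.smul_single _ _ _ _).symm
        rw [this, map_smul]
        rfl
      map_zero' := by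
        have : (⟨Matrix.single 0 0 0, h00 0⟩ : corner D hD) = 0 :=
          Subtype.ext (Matrix.single_zero _ _)
        rw [this, map_zero]
      map_add' := fun x y => by
        have : (⟨Matrix.single 0 0 (x + y), h00 (x + y)⟩ : corner D hD) =
            ⟨Matrix.single 0 0 x, h00 x⟩ + ⟨Matrix.single 0 0 y, h00 y⟩ :=
          Subtype.ext (Matrix.single_add _ _ _ _)
        rw [this, map_add]
      map_mul' := fun x y => by
        have : (⟨Matrix.single 0 0 (x * y), h00 (x * y)⟩ : corner D hD) =
            ⟨Matrix.single 0 0 x, h00 x⟩ * ⟨Matrix.single 0 0 y, h00 y⟩ :=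
          Subtype.ext (single_mul_single _ _ _ _ _).symm
        rw [this, map_mul]
      map_star' := fun x => by
        have : (⟨Matrix.single 0 0 (star x), h00 (star x)⟩ : corner D hD) =
            star ⟨Matrix.single 0 0 x, h00 x⟩ := Subtype.ext (star_single _ _ _).symm
        rw [this, map_star] }
  have hg : ∀ x, g x = f ⟨Matrix.single 0 0 x, h00 x⟩ := fun _ => rfl
  have hone : σ 1 = 1 := hS.one
  -- the trace of the unit
  have hi0 : ∀ i : Fin (m' + 1 + 1), Matrix.single i 0 (dg p i) ∈ corner D hD := by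
    intro i
    apply hmem
    rw [hd0, mul_one, hdi]
  have h0i : ∀ i : Fin (m' + 1 + 1), Matrix.single 0 i (dg p i) ∈ corner D hD := by
    intro i
    apply hmem
    rw [hd0, one_mul, hdi]
  have hD1 : (⟨D, mem_corner_self D hD⟩ : corner D hD) =
      ∑ i, ⟨Matrix.single i 0 (dg p i), hi0 i⟩ * ⟨Matrix.single 0 i (dg p i), h0i i⟩ := by
    apply Subtype.ext
    rw [AddSubmonoidClass.coe_finsetSum]
    show D = ∑ i, Matrix.single i 0 (dg p i) * Matrix.single 0 i (dg p i)
    rw [hDdef]
    ext a c
    rw [Matrix.sum_apply]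
    simp only [single_mul_single, hdi]
    rw [Matrix.diagonal_apply]
    by_cases hac : a = c
    · subst hac
      rw [if_pos rfl, Finset.sum_eq_single a]
      · simp [Matrix.single]
      · intro k _ hk
        simp [Matrix.single, hk]
      · simp
    · rw [if_neg hac, Finset.sum_eq_zero]
      intro k _
      by_cases hk : k = a
      · subst hk
        simp [Matrix.single, hac]
      · simp [Matrix.single, hk]
  have htr : σ (f ⟨D, mem_corner_self D hD⟩) = σ (g 1) * (t : ℂ) := by
    rw [hD1, map_sum]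
    have h1 : σ (∑ i, f (⟨Matrix.single i 0 (dg p i), hi0 i⟩ *
        ⟨Matrix.single 0 i (dg p i), h0i i⟩)) =
        ∑ i, σ (f (⟨Matrix.single i 0 (dg p i), hi0 i⟩ *
          ⟨Matrix.single 0 i (dg p i), h0i i⟩)) := map_sum (sigmaL hπ) _ _
    rw [h1]
    have h2 : ∀ i, σ (f (⟨Matrix.single i 0 (dg p i), hi0 i⟩ *
        ⟨Matrix.single 0 i (dg p i), h0i i⟩)) = σ (g 1) * T.τ (dg p i) := by
      intro i
      rw [map_mul]
      have h3 := hS.comm (f ⟨Matrix.single i 0 (dg p i), hi0 i⟩)
        (f ⟨Matrix.single 0 i (dg p i), h0i i⟩)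
      have h4 : σ (f ⟨Matrix.single i 0 (dg p i), hi0 i⟩ *
          f ⟨Matrix.single 0 i (dg p i), h0i i⟩) = σ (f ⟨Matrix.single 0 i (dg p i), h0i i⟩ *
          f ⟨Matrix.single i 0 (dg p i), hi0 i⟩) := h3
      rw [h4, ← map_mul]
      have h5 : (⟨Matrix.single 0 i (dg p i), h0i i⟩ : corner D hD) *
          ⟨Matrix.single i 0 (dg p i), hi0 i⟩ = ⟨Matrix.single 0 0 (dg p i), h00 _⟩ := by
        apply Subtype.ext
        show Matrix.single 0 i (dg p i) * Matrix.single i 0 (dg p i) = _
        rw [single_mul_single, hdi]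
      rw [h5, ← hg]
      exact trace_of_hom hL hN hπ g (dg p i)
    simp only [h2]
    rw [← Finset.mul_sum, Fin.sum_univ_castSucc]
    simp only [dg_castSucc, dg_last, hA.one, hpt]
    rw [Finset.sum_const, Finset.card_univ, Fintype.card_fin]
    congr 1
    push_cast
    simp
  have hz : f ⟨D, mem_corner_self D hD⟩ = 0 := by
    by_cases h0 : g 1 = 0
    · rw [hD1, map_sum]
      refine Finset.sum_eq_zero fun i _ => ?_
      have h1 : (⟨Matrix.single i 0 (dg p i), hi0 i⟩ : corner D hD) =
          ⟨Matrix.single i 0 (dg p i), hi0 i⟩ * ⟨Matrix.single 0 0 1, h00 1⟩ := by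
        apply Subtype.ext
        show Matrix.single i 0 (dg p i) = Matrix.single i 0 (dg p i) * Matrix.single 0 0 1
        rw [single_mul_single, mul_one]
      have h2 : f ⟨Matrix.single i 0 (dg p i), hi0 i⟩ = 0 := by
        rw [h1, map_mul, ← hg, h0, mul_zero]
      rw [map_mul, h2, zero_mul]
    · exfalso
      have h1 := h U hU Q π σ hπ g h0
      rw [h1, hone, one_mul] at htr
      set e : Q := f ⟨D, mem_corner_self D hD⟩ with he
      have hss : star (⟨D, mem_corner_self D hD⟩ : corner D hD) = ⟨D, mem_corner_self D hD⟩ :=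
        Subtype.ext hD.isSelfAdjoint
      have hmm : (⟨D, mem_corner_self D hD⟩ : corner D hD) * ⟨D, mem_corner_self D hD⟩ =
          ⟨D, mem_corner_self D hD⟩ := Subtype.ext hD.isIdempotentElem
      have hs : star e = e := by rw [he, ← map_star, hss]
      have hm : e * e = e := by rw [he, ← map_mul, hmm]
      have h3 : star (1 - e) * (1 - e) = 1 - e := by
        rw [star_sub, star_one, hs, mul_sub, mul_one, sub_mul, one_mul, hm, sub_self, sub_zero]
      have h4 := hS.nonneg (1 - e)
      rw [h3, map_sub] at h4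
      have h5 : sigmaL hπ 1 = 1 := hS.one
      have h6 : sigmaL hπ e = (t : ℂ) := htr
      rw [h5, h6] at h4
      have h7 : (0 : ℂ) ≤ ((1 - t : ℝ) : ℂ) := by
        push_cast
        exact h4
      have h8 := Complex.zero_le_real.1 h7
      linarith
  intro x
  have hx : (⟨D, mem_corner_self D hD⟩ : corner D hD) * x = x := by
    apply Subtype.ext
    have h1 : D * (x : Matrix (Fin (m' + 1 + 1)) (Fin (m' + 1 + 1)) (Elt N)) * D = x := x.2
    show D * (x : Matrix (Fin (m' + 1 + 1)) (Fin (m' + 1 + 1)) (Elt N)) = x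
    have h2 : D * D = D := hD.isIdempotentElem
    conv_lhs => rw [← h1]
    rw [← mul_assoc, ← mul_assoc, h2]
    exact h1
  rw [← hx, map_mul, hz, zero_mul]

end main

end Pool.Agent.Y364.AZ
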